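import Mathlib

/-!
# Verbal ideals of the free Lie algebra of countable rank: evaluations, solvability, blocks
-/

set_option autoImplicit false

namespace Pool.Agent.LAPG

open LieAlgebra

universe u v

section general

variable {F : Type u} [Field F] {A : Type v} [LieRing A] [LieAlgebra F A]

lemma bracket_span {P Q R : Set A}
    (h : ∀ a ∈ P, ∀ b ∈ Q, ⁅a, b⁆ ∈ Submodule.span F R) {x y : A}
    (hx : x ∈ Submodule.span F P) (hy : y ∈ Submodule.span F Q) : ⁅x, y⁆ ∈ Submodule.span F R := by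
  induction hx using Submodule.span_induction with
  | mem a ha =>
    induction hy using Submodule.span_induction with
    | mem b hb => exact h a ha b hb
    | zero => simp
    | add b c _ _ hb hc => rw [lie_add]; exact Submodule.add_mem _ hb hc
    | smul t b _ hb => rw [lie_smul]; exact Submodule.smul_mem _ _ hb
  | zero => simp
  | add a c _ _ ha hc => rw [add_lie]; exact Submodule.add_mem _ ha hc
  | smul t a _ ha => rw [smul_lie]; exact Submodule.smul_mem _ _ ha

lemma oper_le_span {I J : LieIdeal F A} {P Q R : Set A}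
    (hI : ∀ x ∈ I, x ∈ Submodule.span F P) (hJ : ∀ x ∈ J, x ∈ Submodule.span F Q)
    (h : ∀ a ∈ P, ∀ b ∈ Q, ⁅a, b⁆ ∈ Submodule.span F R) :
    ∀ x ∈ ⁅I, J⁆, x ∈ Submodule.span F R := by
  intro x hx
  rw [← LieSubmodule.mem_toSubmodule, LieSubmodule.lieIdeal_oper_eq_linear_span'] at hx
  refine Submodule.span_le.2 ?_ hx
  rintro _ ⟨a, ha, b, hb, rfl⟩
  exact bracket_span h (hI a ha) (hJ b hb)

/-- The iterated commutator of length `2 ^ d` of the elements `a 0, a 1, ...`. -/
def ev : ℕ → (ℕ → A) → A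
  | 0, a => a 0
  | d + 1, a => ⁅ev d (fun i => a (2 * i)), ev d (fun i => a (2 * i + 1))⁆

lemma ev_map {B : Type*} [LieRing B] [LieAlgebra F B] (φ : A →ₗ⁅F⁆ B) (d : ℕ) (a : ℕ → A) :
    φ (ev d a) = ev d (fun i => φ (a i)) := by
  induction d generalizing a with
  | zero => rfl
  | succ d ih => simp only [ev, LieHom.map_lie, ih]

lemma span_ev (S : LieIdeal F A) (d : ℕ) : ∀ x ∈ derivedSeriesOfIdeal F A d S,
    x ∈ Submodule.span F {x : A | ∃ a : ℕ → A, (∀ i, a i ∈ S) ∧ ev d a = x} := by
  induction d with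
  | zero =>
    intro x hx
    exact Submodule.subset_span ⟨fun _ => x, fun _ => hx, rfl⟩
  | succ d ih =>
    rw [derivedSeriesOfIdeal_succ]
    refine oper_le_span ih ih ?_
    rintro _ ⟨a, ha, rfl⟩ _ ⟨b, hb, rfl⟩
    refine Submodule.subset_span ⟨fun i => if i % 2 = 0 then a (i / 2) else b (i / 2), ?_, ?_⟩
    · intro i
      dsimp only
      split_ifs
      · exact ha _
      · exact hb _
    · have h1 : (fun i => if (2 * i) % 2 = 0 then a ((2 * i) / 2) else b ((2 * i) / 2)) = a := by
        funext i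
        simp
      have h2 : (fun i => if (2 * i + 1) % 2 = 0 then a ((2 * i + 1) / 2)
          else b ((2 * i + 1) / 2)) = b := by
        funext i
        have e1 : (2 * i + 1) % 2 = 1 := by omega
        have e2 : (2 * i + 1) / 2 = i := by omega
        simp [e1, e2]
      simp only [ev]
      rw [h1, h2]

/-- The product `[.. [b 0, b 1], .., b k]`. -/
def ln (b : ℕ → A) : ℕ → A
  | 0 => b 0
  | k + 1 => ⁅ln b k, b (k + 1)⁆

lemma ln_congr {b c : ℕ → A} (k : ℕ) (h : ∀ i ≤ k, b i = c i) : ln b k = ln c k := by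
  induction k with
  | zero => exact h 0 le_rfl
  | succ k ih => rw [ln, ln, ih (fun i hi => h i (by omega)), h (k + 1) le_rfl]

lemma ln_map {B : Type*} [LieRing B] [LieAlgebra F B] (φ : A →ₗ⁅F⁆ B) (b : ℕ → A) (k : ℕ) :
    φ (ln b k) = ln (fun i => φ (b i)) k := by
  induction k with
  | zero => rfl
  | succ k ih => simp only [ln, LieHom.map_lie, ih]

lemma ln_sign {b c : ℕ → A} (e : F) (i₀ : ℕ) (k : ℕ) (hk : i₀ ≤ k)
    (h : ∀ i ≤ k, i ≠ i₀ → c i = b i) (h₀ : c i₀ = e • b i₀) : ln c k = e • ln b k := by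
  induction k with
  | zero =>
    obtain rfl : i₀ = 0 := by omega
    exact h₀
  | succ k ih =>
    rw [ln, ln]
    rcases Nat.lt_or_ge k i₀ with h1 | h1
    · obtain rfl : i₀ = k + 1 := by omega
      rw [h₀, lie_smul, ln_congr k (fun i hi => h i (by omega) (by omega))]
    · rw [ih h1 (fun i hi hne => h i (by omega) hne), h (k + 1) le_rfl (by omega), smul_lie]

/-- The block `[[a,b],[c,d]]`. -/
def W (a b c d : A) : A := ⁅⁅a, b⁆, ⁅c, d⁆⁆

lemma W1 (a b c d : A) : W b a d c = W a b c d := by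
  unfold W
  rw [← lie_skew a b, ← lie_skew c d, neg_lie, lie_neg, neg_neg]

lemma W2 (a b c d : A) : W c d a b = -W a b c d := by
  unfold W
  rw [← lie_skew ⁅a, b⁆ ⁅c, d⁆, neg_neg]

lemma W3 (a b c d : A) : W d c b a = -W a b c d := by
  rw [W1 c d a b, W2]

/-- The three arrangements of a block. -/
def blk (t : Fin 3) (a b c d : A) : A :=
  if t = 0 then W a b c d else if t = 1 then W a c d b else W a d b c

lemma blk_exists (t : Fin 3) {x : A} (h : ∃ a b c d : A, W a b c d = x) :
    ∃ a b c d : A, blk t a b c d = x := by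
  obtain ⟨a, b, c, d, rfl⟩ := h
  fin_cases t
  · exact ⟨a, b, c, d, rfl⟩
  · exact ⟨a, d, b, c, rfl⟩
  · exact ⟨a, c, d, b, rfl⟩

/-- The `i`-th factor: a block for `i < r`, a single element for `i ≥ r`. -/
def item (r : ℕ) (τ : ℕ → Fin 3) (y : ℕ → A) (i : ℕ) : A :=
  if i < r then blk (τ i) (y (4 * i)) (y (4 * i + 1)) (y (4 * i + 2)) (y (4 * i + 3))
  else y (3 * r + i)

/-- The product of `r` blocks and `m + 1 - r` single elements. -/
def E (r m : ℕ) (τ : ℕ → Fin 3) (y : ℕ → A) : A := ln (item r τ y) m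

lemma W_map {B : Type*} [LieRing B] [LieAlgebra F B] (φ : A →ₗ⁅F⁆ B) (a b c d : A) :
    φ (W a b c d) = W (φ a) (φ b) (φ c) (φ d) := by
  simp only [W, LieHom.map_lie]

lemma blk_map {B : Type*} [LieRing B] [LieAlgebra F B] (φ : A →ₗ⁅F⁆ B) (t : Fin 3)
    (a b c d : A) : φ (blk t a b c d) = blk t (φ a) (φ b) (φ c) (φ d) := by
  unfold blk
  split_ifs <;> exact W_map φ _ _ _ _

lemma item_map {B : Type*} [LieRing B] [LieAlgebra F B] (φ : A →ₗ⁅F⁆ B) (r : ℕ)
    (τ : ℕ → Fin 3) (y : ℕ → A) (i : ℕ) :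
    φ (item r τ y i) = item r τ (fun i => φ (y i)) i := by
  unfold item
  split_ifs
  · exact blk_map φ _ _ _ _ _
  · rfl

lemma E_map {B : Type*} [LieRing B] [LieAlgebra F B] (φ : A →ₗ⁅F⁆ B) (r m : ℕ)
    (τ : ℕ → Fin 3) (y : ℕ → A) : φ (E r m τ y) = E r m τ (fun i => φ (y i)) := by
  unfold E
  rw [ln_map]
  congr 1
  funext i
  exact item_map φ r τ y i

/-- the ideals `N k` : lower central series of the second derived algebra -/
noncomputable def N (F : Type u) [Field F] (A : Type v) [LieRing A] [LieAlgebra F A] :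
    ℕ → LieIdeal F A
  | 0 => derivedSeries F A 2
  | k + 1 => ⁅N F A k, derivedSeries F A 2⁆

lemma derived_le_N (k : ℕ) : derivedSeries F A (2 + k) ≤ N F A k := by
  induction k with
  | zero => exact le_rfl
  | succ k ih =>
    rw [← Nat.add_assoc, derivedSeries_def, derivedSeriesOfIdeal_succ, N]
    exact LieSubmodule.mono_lie ih (derivedSeriesOfIdeal_le le_rfl (by omega))

lemma span_two : ∀ x ∈ derivedSeries F A 2,
    x ∈ Submodule.span F {x : A | ∃ a b c d : A, W a b c d = x} := by
  intro x hx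
  have h := span_ev (F := F) (A := A) ⊤ 2 x hx
  refine Submodule.span_mono ?_ h
  rintro _ ⟨a, -, rfl⟩
  exact ⟨a 0, a 2, a 1, a 3, by simp [ev, W]⟩

lemma span_N (k : ℕ) : ∀ x ∈ N F A k, x ∈ Submodule.span F {x : A | ∃ b : ℕ → A,
    (∀ i, ∃ p q s t : A, W p q s t = b i) ∧ ln b k = x} := by
  induction k with
  | zero =>
    intro x hx
    refine Submodule.span_mono ?_ (span_two x hx)
    rintro _ ⟨a, b, c, d, rfl⟩
    exact ⟨fun _ => W a b c d, fun _ => ⟨a, b, c, d, rfl⟩, rfl⟩
  | succ k ih =>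
    rw [N]
    refine oper_le_span ih span_two ?_
    rintro _ ⟨b, hb, rfl⟩ _ ⟨p, q, s, t, rfl⟩
    refine Submodule.subset_span ⟨fun i => if i ≤ k then b i else W p q s t, ?_, ?_⟩
    · intro i
      dsimp only
      split_ifs
      · exact hb i
      · exact ⟨p, q, s, t, rfl⟩
    · rw [ln, ln_congr k (c := b) (fun i hi => by simp [hi])]
      simp

lemma derived_le_of_E {J : LieIdeal F A} {r m : ℕ} (τ : ℕ → Fin 3)
    (h : ∀ y : ℕ → A, E r m τ y ∈ J) : derivedSeries F A (2 + m) ≤ J := by
  refine (derived_le_N m).trans fun x hx => ?_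
  have hx' := span_N m x hx
  refine (Submodule.span_le (p := (J : Submodule F A))).2 ?_ hx'
  rintro _ ⟨b, hb, rfl⟩
  have hb' := fun i => blk_exists (τ i) (hb i)
  choose p q s t hb using hb'
  have key : ln b m = E r m τ (fun n => if n < 4 * r then
      (if n % 4 = 0 then p (n / 4) else if n % 4 = 1 then q (n / 4)
        else if n % 4 = 2 then s (n / 4) else t (n / 4)) else b (n - 3 * r)) := by
    unfold E
    refine ln_congr m fun i hi => ?_
    unfold item
    split_ifs with h1
    · have e0 : 4 * i < 4 * r := by omega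
      have e1 : 4 * i + 1 < 4 * r := by omega
      have e2 : 4 * i + 2 < 4 * r := by omega
      have e3 : 4 * i + 3 < 4 * r := by omega
      have f0 : (4 * i) % 4 = 0 := by omega
      have f1 : (4 * i + 1) % 4 = 1 := by omega
      have f2 : (4 * i + 2) % 4 = 2 := by omega
      have f3 : (4 * i + 3) % 4 = 3 := by omega
      have g0 : (4 * i) / 4 = i := by omega
      have g1 : (4 * i + 1) / 4 = i := by omega
      have g2 : (4 * i + 2) / 4 = i := by omega
      have g3 : (4 * i + 3) / 4 = i := by omega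
      simp only [e0, e1, e2, e3, f0, f1, f2, f3, g0, g1, g2, g3, if_true]
      rw [← hb i]
      norm_num
    · have e : ¬ 3 * r + i < 4 * r := by omega
      simp only [e, if_false]
      congr 1
      omega
  rw [SetLike.mem_coe, key]
  exact h _

/-- The four entries of a block after a double transposition. -/
def sw (j : Fin 3) (k : ℕ) : ℕ :=
  if j = 0 then (if k = 0 then 1 else if k = 1 then 0 else if k = 2 then 3 else 2)
  else if j = 1 then (if k = 0 then 2 else if k = 1 then 3 else if k = 2 then 0 else 1)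
  else (if k = 0 then 3 else if k = 1 then 2 else if k = 2 then 1 else 0)

lemma blk_sw (F : Type u) [Field F] {A : Type v} [LieRing A] [LieAlgebra F A]
    (t j : Fin 3) (y : ℕ → A) :
    blk t (y (sw j 0)) (y (sw j 1)) (y (sw j 2)) (y (sw j 3)) =
      (if t = j then (1 : F) else -1) • blk t (y 0) (y 1) (y 2) (y 3) := by
  fin_cases t <;> fin_cases j <;> simp [blk, sw]
  · exact W1 _ _ _ _
  · exact W2 _ _ _ _
  · exact W3 _ _ _ _
  · exact W3 _ _ _ _
  · exact W1 _ _ _ _
  · exact W2 _ _ _ _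
  · exact W2 _ _ _ _
  · exact W3 _ _ _ _
  · exact W1 _ _ _ _

/-- Pure linear algebra: simultaneous eigenvectors of sign type are independent modulo `S`. -/
lemma indep_signs {V : Type v} [AddCommGroup V] [Module F V] (h2 : (2 : F) ≠ 0) {r : ℕ}
    (w : (Fin r → Fin 3) → V) (S : Submodule F V) (hw : ∀ τ, w τ ∉ S)
    (D : Fin r → Fin 3 → V →ₗ[F] V) (hS : ∀ i j x, x ∈ S → D i j x ∈ S)
    (hD : ∀ i j τ, D i j (w τ) = (if τ i = j then (1 : F) else -1) • w τ) :
    LinearIndependent F (fun τ => S.mkQ (w τ)) := by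
  classical
  rw [Fintype.linearIndependent_iff]
  intro g hg τ₀
  have h0 : ∑ τ, g τ • w τ ∈ S := by
    rw [← Submodule.Quotient.mk_eq_zero, ← Submodule.mkQ_apply, map_sum]
    simpa only [map_smul] using hg
  have key : ∀ T : Finset (Fin r),
      ∑ τ ∈ Finset.univ.filter (fun τ : Fin r → Fin 3 => ∀ i ∈ T, τ i = τ₀ i), g τ • w τ ∈ S := by
    intro T
    induction T using Finset.induction_on with
    | empty => simpa using h0
    | insert i T _ ih =>
      have h3 := S.add_mem ih (hS i (τ₀ i) _ ih)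
      have h4 : ∑ τ ∈ Finset.univ.filter (fun τ : Fin r → Fin 3 => ∀ i ∈ T, τ i = τ₀ i),
          g τ • w τ + D i (τ₀ i) (∑ τ ∈ Finset.univ.filter
            (fun τ : Fin r → Fin 3 => ∀ i ∈ T, τ i = τ₀ i), g τ • w τ) =
          (2 : F) • ∑ τ ∈ Finset.univ.filter
            (fun τ : Fin r → Fin 3 => ∀ k ∈ insert i T, τ k = τ₀ k), g τ • w τ := by
        rw [map_sum, ← Finset.sum_add_distrib, Finset.smul_sum]
        have h5 : (Finset.univ.filter
            (fun τ : Fin r → Fin 3 => ∀ k ∈ insert i T, τ k = τ₀ k)) =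
            (Finset.univ.filter (fun τ : Fin r → Fin 3 => ∀ i ∈ T, τ i = τ₀ i)).filter
              (fun τ => τ i = τ₀ i) := by
          ext τ
          simp [and_comm]
        rw [h5, Finset.sum_filter _ (fun τ : Fin r → Fin 3 => (2 : F) • g τ • w τ)]
        refine Finset.sum_congr rfl fun τ _ => ?_
        rw [map_smul, hD]
        split_ifs
        · rw [one_smul, two_smul]
        · rw [neg_smul, one_smul, smul_neg, add_neg_cancel]
      rw [h4] at h3
      exact (Submodule.smul_mem_iff _ h2).1 h3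
  have h6 := key Finset.univ
  have h7 : Finset.univ.filter (fun τ : Fin r → Fin 3 => ∀ i ∈ Finset.univ, τ i = τ₀ i) =
      {τ₀} := by
    ext τ
    simp [funext_iff]
  rw [h7, Finset.sum_singleton] at h6
  by_contra hne
  exact hw τ₀ ((Submodule.smul_mem_iff _ hne).1 h6)

end general

end Pool.Agent.LAPG
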