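import Mathlib

/-!
# Verbal ideals, codimensions, almost polynomial growth: the definitions
-/

set_option autoImplicit false

namespace Pool.Agent.LAPG

open LieAlgebra

universe u

variable {F : Type u} [Field F]

/-- Verbal ideals of the free Lie algebra of countable rank: stable under all endomorphisms. -/
def IsVerbal (I : LieIdeal F (FreeLieAlgebra F ℕ)) : Prop :=
  ∀ φ : FreeLieAlgebra F ℕ →ₗ⁅F⁆ FreeLieAlgebra F ℕ, ∀ f ∈ I, φ f ∈ I

/-- Some identity of solvability lies in `I`. -/
def Solv (I : LieIdeal F (FreeLieAlgebra F ℕ)) : Prop :=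
  ∃ d : ℕ, derivedSeries F (FreeLieAlgebra F ℕ) d ≤ I

/-- The Lie monomials in the generators, with the multiset of their generators. -/
inductive IsMono (F : Type u) [Field F] : Multiset ℕ → FreeLieAlgebra F ℕ → Prop
  | var (i : ℕ) : IsMono F {i} (FreeLieAlgebra.of F i)
  | br {s t : Multiset ℕ} {x y : FreeLieAlgebra F ℕ} :
      IsMono F s x → IsMono F t y → IsMono F (s + t) ⁅x, y⁆

/-- The multilinear elements in the first `n` generators. -/
noncomputable def multi (F : Type u) [Field F] (n : ℕ) : Submodule F (FreeLieAlgebra F ℕ) :=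
  Submodule.span F {x | IsMono F (Multiset.range n) x}

/-- The `n`-th codimension. -/
noncomputable def codim (I : LieIdeal F (FreeLieAlgebra F ℕ)) (n : ℕ) : Cardinal.{u} :=
  Module.rank F ((multi F n).map (Submodule.mkQ (I : Submodule F (FreeLieAlgebra F ℕ))))

/-- Polynomial growth of the codimensions. -/
def PolyGrowth (I : LieIdeal F (FreeLieAlgebra F ℕ)) : Prop :=
  ∃ C k : ℕ, ∀ n : ℕ, 1 ≤ n → codim I n ≤ ((C * n ^ k : ℕ) : Cardinal.{u})

/-- Almost polynomial growth: verbal, not of polynomial growth, and every properly larger verbal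
ideal (every proper subvariety) has polynomial growth. -/
def AlmostPoly (I : LieIdeal F (FreeLieAlgebra F ℕ)) : Prop :=
  IsVerbal I ∧ ¬ PolyGrowth I ∧
    ∀ J : LieIdeal F (FreeLieAlgebra F ℕ), IsVerbal J → I < J → PolyGrowth J

/-- Just non-solvable: verbal, non-solvable, every properly larger verbal ideal solvable. -/
def JustNonSolv (I : LieIdeal F (FreeLieAlgebra F ℕ)) : Prop :=
  IsVerbal I ∧ ¬ Solv I ∧
    ∀ J : LieIdeal F (FreeLieAlgebra F ℕ), IsVerbal J → I < J → Solv J

end Pool.Agent.LAPG
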