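import Pool.Agent.LAPG.Main

/-!
# One small codimension makes a variety solvable, with an explicit derived length
-/

set_option autoImplicit false

namespace Pool.Agent.LAPG

open LieAlgebra Cardinal

universe u v

section general

variable {F : Type u} [Field F] {A : Type v} [LieRing A] [LieAlgebra F A]

lemma N_lie (b : ℕ) : ∀ a : ℕ, ⁅N F A a, N F A b⁆ ≤ N F A (a + b + 1) := by
  induction b with
  | zero => intro a; exact le_rfl
  | succ b ih =>
    intro a
    rw [LieSubmodule.lie_le_iff]
    intro x hx m hm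
    have hm' : m ∈ ⁅N F A b, derivedSeries F A 2⁆ := hm
    rw [← LieSubmodule.mem_toSubmodule, LieSubmodule.lieIdeal_oper_eq_linear_span'] at hm'
    clear hm
    induction hm' using Submodule.span_induction with
    | mem w hw =>
      obtain ⟨y, hy, z, hz, rfl⟩ := hw
      rw [leibniz_lie]
      refine add_mem ?_ ?_
      · have h1 : ⁅x, y⁆ ∈ N F A (a + b + 1) := ih a (LieSubmodule.lie_mem_lie hx hy)
        exact (LieSubmodule.lie_mem_lie h1 hz :
          ⁅⁅x, y⁆, z⁆ ∈ ⁅N F A (a + b + 1), derivedSeries F A 2⁆)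
      · have h1 : ⁅x, z⁆ ∈ N F A (a + 1) := (LieSubmodule.lie_mem_lie hx hz :
          ⁅x, z⁆ ∈ ⁅N F A a, derivedSeries F A 2⁆)
        have h2 := ih (a + 1) (LieSubmodule.lie_mem_lie h1 hy)
        rw [← lie_skew]
        have e : a + 1 + b + 1 = a + (b + 1) + 1 := by omega
        rw [e] at h2
        exact neg_mem h2
    | zero => rw [lie_zero]; exact zero_mem _
    | add p q _ _ hp hq =>
      rw [lie_add]
      exact add_mem hp hq
    | smul t p _ hp =>
      rw [lie_smul]
      exact SMulMemClass.smul_mem t hp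

lemma N_anti (a : ℕ) : ∀ k : ℕ, N F A (a + k) ≤ N F A a := by
  intro k
  induction k with
  | zero => exact le_rfl
  | succ k ih => exact (LieSubmodule.lie_le_left _ _).trans ih

lemma derived_le_N_pow (j : ℕ) : derivedSeries F A (2 + j) ≤ N F A (2 ^ j - 1) := by
  induction j with
  | zero => exact le_rfl
  | succ j ih =>
    rw [← Nat.add_assoc, derivedSeries_def, derivedSeriesOfIdeal_succ]
    refine (LieSubmodule.mono_lie ih ih).trans ((N_lie _ _).trans ?_)
    have h : 1 ≤ 2 ^ j := Nat.one_le_two_pow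
    have e : 2 ^ j - 1 + (2 ^ j - 1) + 1 = 2 ^ (j + 1) - 1 := by
      rw [pow_succ]; omega
    rw [e]

lemma derived_le_N_clog (m : ℕ) :
    derivedSeries F A (2 + Nat.clog 2 (m + 1)) ≤ N F A m := by
  refine (derived_le_N_pow _).trans ?_
  have h : m + 1 ≤ 2 ^ Nat.clog 2 (m + 1) := Nat.le_pow_clog (by norm_num) _
  obtain ⟨k, hk⟩ := Nat.exists_eq_add_of_le (show m ≤ 2 ^ Nat.clog 2 (m + 1) - 1 by omega)
  rw [hk]
  exact N_anti m k

lemma N_le_of_E {J : LieIdeal F A} {r m : ℕ} (τ : ℕ → Fin 3)
    (h : ∀ y : ℕ → A, E r m τ y ∈ J) : N F A m ≤ J := by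
  intro x hx
  have hx' := span_N m x hx
  refine (Submodule.span_le (p := (J : Submodule F A))).2 ?_ hx'
  rintro _ ⟨b, hb, rfl⟩
  have hb' := fun i => blk_exists (τ i) (hb i)
  choose p q s t hb using hb'
  have key : ln b m = E r m τ (fun n => if n < 4 * r then
      (if n % 4 = 0 then p (n / 4) else if n % 4 = 1 then q (n / 4)
        else if n % 4 = 2 then s (n / 4) else t (n / 4)) else b (n - 3 * r)) := by
    unfold E
    refine ln_congr m fun i hi => ?_
    unfold item
    split_ifs with h1
    · have e0 : 4 * i < 4 * r := by omega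
      have e1 : 4 * i + 1 < 4 * r := by omega
      have e2 : 4 * i + 2 < 4 * r := by omega
      have e3 : 4 * i + 3 < 4 * r := by omega
      have f0 : (4 * i) % 4 = 0 := by omega
      have f1 : (4 * i + 1) % 4 = 1 := by omega
      have f2 : (4 * i + 2) % 4 = 2 := by omega
      have f3 : (4 * i + 3) % 4 = 3 := by omega
      have g0 : (4 * i) / 4 = i := by omega
      have g1 : (4 * i + 1) / 4 = i := by omega
      have g2 : (4 * i + 2) / 4 = i := by omega
      have g3 : (4 * i + 3) / 4 = i := by omega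
      simp only [e0, e1, e2, e3, f0, f1, f2, f3, g0, g1, g2, g3, if_true]
      rw [← hb i]
      norm_num
    · have e : ¬ 3 * r + i < 4 * r := by omega
      simp only [e, if_false]
      congr 1
      omega
  rw [SetLike.mem_coe, key]
  exact h _

end general

section free

variable {F : Type u} [Field F]

/-- One codimension below `3 ^ r` already gives solvability, with an explicit derived length. -/
lemma solv_of_codim (h2 : (2 : F) ≠ 0) {I : LieIdeal F (FreeLieAlgebra F ℕ)} (hI : IsVerbal I)
    (r m : ℕ) (hr : r ≤ m + 1) (h : codim I (3 * r + m + 1) < ((3 ^ r : ℕ) : Cardinal.{u})) :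
    derivedSeries F (FreeLieAlgebra F ℕ) (2 + Nat.clog 2 (m + 1)) ≤ I := by
  by_contra hc
  have hE : ∀ τ : ℕ → Fin 3, E r m τ (fun n => X F n) ∉ I := by
    intro τ hτ
    refine hc ((derived_le_N_clog m).trans (N_le_of_E (r := r) τ fun y => ?_))
    have h1 := hI (FreeLieAlgebra.lift F y) _ hτ
    rw [E_map] at h1
    simpa only [lift_of] using h1
  set S : Submodule F (FreeLieAlgebra F ℕ) := (I : Submodule F (FreeLieAlgebra F ℕ)) with hS
  have hind : LinearIndependent F
      (fun τ : Fin r → Fin 3 => S.mkQ (E r m (ext τ) (fun n => X F n))) := by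
    refine indep_signs h2 _ S (fun τ hτ => hE (ext τ) hτ)
      (fun i j => (FreeLieAlgebra.lift F (fun n => X F (sub i j n)) :
        FreeLieAlgebra F ℕ →ₗ[F] FreeLieAlgebra F ℕ)) ?_ ?_
    · intro i j x hx
      exact hI (FreeLieAlgebra.lift F (fun n => X F (sub i j n))) x hx
    · intro i j τ
      have h := E_sub (F := F) r m hr (ext τ) i i.2 j
      have e : ext τ i = τ i := by simp [ext]
      rw [e] at h
      rw [← h]
      have h3 := E_map (FreeLieAlgebra.lift F (fun n => X F (sub i j n))) r m (ext τ)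
        (fun n => X F n)
      simp only [lift_of] at h3
      exact h3
  have hind2 : LinearIndependent F (fun τ : Fin r → Fin 3 =>
      (⟨S.mkQ (E r m (ext τ) (fun n => X F n)),
        Submodule.mem_map_of_mem (E_mem_multi r m hr (ext τ))⟩ :
        ((multi F (3 * r + m + 1)).map S.mkQ))) :=
    LinearIndependent.of_comp (Submodule.subtype _) hind
  have h' := hind2.cardinal_lift_le_rank
  have hc' : #(Fin r → Fin 3) = ((3 ^ r : ℕ) : Cardinal.{0}) := by simp
  simp only [hc', Cardinal.lift_natCast, Cardinal.lift_uzero] at h'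
  exact absurd h (not_lt.2 h')

lemma solv_of_codim' (h2 : (2 : F) ≠ 0) {I : LieIdeal F (FreeLieAlgebra F ℕ)} (hI : IsVerbal I)
    (n : ℕ) (hn : 1 ≤ n) (h : codim I n < ((3 ^ (n / 4) : ℕ) : Cardinal.{u})) :
    derivedSeries F (FreeLieAlgebra F ℕ) (2 + Nat.clog 2 (n / 4 + n % 4)) ≤ I := by
  have e : 3 * (n / 4) + (n / 4 + n % 4 - 1) + 1 = n := by omega
  have h3 := solv_of_codim h2 hI (n / 4) (n / 4 + n % 4 - 1) (by omega) (by rwa [e])
  have e2 : n / 4 + n % 4 - 1 + 1 = n / 4 + n % 4 := by omega
  rwa [e2] at h3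

end free

end Pool.Agent.LAPG
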