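import Pool.Agent.LAPG.Basic
import Pool.Agent.LAPG.Defs

/-!
# Verbal ideals, codimension growth, almost polynomial growth
-/

set_option autoImplicit false

namespace Pool.Agent.LAPG

open LieAlgebra Cardinal

universe u

variable {F : Type u} [Field F]

/-- The generators. -/
noncomputable abbrev X (F : Type u) [Field F] (i : ℕ) : FreeLieAlgebra F ℕ := FreeLieAlgebra.of F i

/-- Extension of a function on `Fin r` by `0`. -/
def ext {r : ℕ} (τ : Fin r → Fin 3) (i : ℕ) : Fin 3 := if h : i < r then τ ⟨i, h⟩ else 0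

/-- The permutation of the generators acting on the `i`-th block. -/
def sub (i : ℕ) (j : Fin 3) (n : ℕ) : ℕ := if n / 4 = i then 4 * i + sw j (n % 4) else n

lemma E_sub (r m : ℕ) (hr : r ≤ m + 1) (τ : ℕ → Fin 3) (i : ℕ) (hi : i < r) (j : Fin 3) :
    E r m τ (fun n => X F (sub i j n)) =
      (if τ i = j then (1 : F) else -1) • E r m τ (fun n => X F n) := by
  unfold E
  refine ln_sign _ i m (by omega) ?_ ?_
  · intro k _ hne
    unfold item
    split_ifs with h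
    · have h0 : (4 * k) / 4 = k := by omega
      have h1 : (4 * k + 1) / 4 = k := by omega
      have h2 : (4 * k + 2) / 4 = k := by omega
      have h3 : (4 * k + 3) / 4 = k := by omega
      simp only [sub, h0, h1, h2, h3, hne, if_false]
    · have h0 : ¬ (3 * r + k) / 4 = i := by omega
      simp only [sub, h0, if_false]
  · unfold item
    rw [if_pos hi, if_pos hi]
    have h := blk_sw F (τ i) j (fun k => X F (4 * i + k))
    have h0 : (4 * i) / 4 = i := by omega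
    have h1 : (4 * i + 1) / 4 = i := by omega
    have h2 : (4 * i + 2) / 4 = i := by omega
    have h3 : (4 * i + 3) / 4 = i := by omega
    have f0 : (4 * i) % 4 = 0 := by omega
    have f1 : (4 * i + 1) % 4 = 1 := by omega
    have f2 : (4 * i + 2) % 4 = 2 := by omega
    have f3 : (4 * i + 3) % 4 = 3 := by omega
    simp only [sub, h0, h1, h2, h3, f0, f1, f2, f3, if_true]
    exact h

lemma lift_of (f : ℕ → FreeLieAlgebra F ℕ) (n : ℕ) :
    FreeLieAlgebra.lift F f (X F n) = f n := FreeLieAlgebra.lift_of_apply f n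

lemma solv_of_E {I : LieIdeal F (FreeLieAlgebra F ℕ)} (hI : IsVerbal I) {r m : ℕ}
    (τ : ℕ → Fin 3) (h : E r m τ (fun n => X F n) ∈ I) : Solv I := by
  refine ⟨2 + m, derived_le_of_E (r := r) τ fun y => ?_⟩
  have h1 := hI (FreeLieAlgebra.lift F y) _ h
  rw [E_map] at h1
  simpa only [lift_of] using h1

lemma isMono_blk (t : Fin 3) (i : ℕ) :
    IsMono F ({4 * i} + {4 * i + 1} + ({4 * i + 2} + {4 * i + 3}))
      (blk t (X F (4 * i)) (X F (4 * i + 1)) (X F (4 * i + 2)) (X F (4 * i + 3))) := by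
  have key : ∀ a b c d : ℕ, IsMono F ({a} + {b} + ({c} + {d}))
      (W (X F a) (X F b) (X F c) (X F d)) := fun a b c d =>
    IsMono.br (IsMono.br (IsMono.var a) (IsMono.var b)) (IsMono.br (IsMono.var c) (IsMono.var d))
  fin_cases t
  · exact key _ _ _ _
  · have h := key (4 * i) (4 * i + 2) (4 * i + 3) (4 * i + 1)
    have e : ({4 * i} + {4 * i + 2} + ({4 * i + 3} + {4 * i + 1}) : Multiset ℕ) =
      {4 * i} + {4 * i + 1} + ({4 * i + 2} + {4 * i + 3}) := by abel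
    rw [e] at h
    exact h
  · have h := key (4 * i) (4 * i + 3) (4 * i + 1) (4 * i + 2)
    have e : ({4 * i} + {4 * i + 3} + ({4 * i + 1} + {4 * i + 2}) : Multiset ℕ) =
      {4 * i} + {4 * i + 1} + ({4 * i + 2} + {4 * i + 3}) := by abel
    rw [e] at h
    exact h

lemma isMono_ln (r : ℕ) (τ : ℕ → Fin 3) (k : ℕ) :
    IsMono F (Multiset.range (if k < r then 4 * (k + 1) else 3 * r + k + 1))
      (ln (item r τ (fun n => X F n)) k) := by
  have hsum : ∀ a : ℕ, Multiset.range (a + 4) =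
      Multiset.range a + ({a} + {a + 1} + ({a + 2} + {a + 3})) := by
    intro a
    rw [show a + 4 = (((a + 1) + 1) + 1) + 1 by rfl, Multiset.range_succ, Multiset.range_succ,
      Multiset.range_succ, Multiset.range_succ]
    simp only [← Multiset.singleton_add]
    abel
  induction k with
  | zero =>
    unfold ln item
    split_ifs with h
    · have h1 := isMono_blk (F := F) (τ 0) 0
      have h2 := hsum 0
      simp only [Nat.mul_zero, Multiset.range_zero, zero_add] at h1 h2 ⊢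
      rw [Nat.mul_one, h2]
      exact h1
    · have hr : r = 0 := by omega
      subst hr
      simpa using IsMono.var (F := F) 0
  | succ k ih =>
    rw [ln]
    by_cases h : k + 1 < r
    · have h' : k < r := by omega
      rw [if_pos h'] at ih
      rw [if_pos h, show 4 * (k + 1 + 1) = 4 * (k + 1) + 4 by ring, hsum]
      refine IsMono.br ih ?_
      unfold item
      rw [if_pos h]
      exact isMono_blk (τ (k + 1)) (k + 1)
    · rw [if_neg h]
      have e : (if k < r then 4 * (k + 1) else 3 * r + k + 1) = 3 * r + (k + 1) := by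
        split_ifs <;> omega
      rw [e] at ih
      rw [Multiset.range_succ, ← Multiset.singleton_add, add_comm]
      refine IsMono.br ih ?_
      unfold item
      rw [if_neg h]
      exact IsMono.var _

lemma E_mem_multi (r m : ℕ) (hr : r ≤ m + 1) (τ : ℕ → Fin 3) :
    E r m τ (fun n => X F n) ∈ multi F (3 * r + m + 1) := by
  have h := isMono_ln (F := F) r τ m
  have e : (if m < r then 4 * (m + 1) else 3 * r + m + 1) = 3 * r + m + 1 := by
    split_ifs <;> omega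
  rw [e] at h
  exact Submodule.subset_span h

lemma codim_lower (h2 : (2 : F) ≠ 0) {I : LieIdeal F (FreeLieAlgebra F ℕ)} (hI : IsVerbal I)
    (hns : ¬ Solv I) (r m : ℕ) (hr : r ≤ m + 1) :
    ((3 ^ r : ℕ) : Cardinal.{u}) ≤ codim I (3 * r + m + 1) := by
  set S : Submodule F (FreeLieAlgebra F ℕ) := (I : Submodule F (FreeLieAlgebra F ℕ)) with hS
  have hind : LinearIndependent F
      (fun τ : Fin r → Fin 3 => S.mkQ (E r m (ext τ) (fun n => X F n))) := by
    refine indep_signs h2 _ S (fun τ hτ => hns (solv_of_E hI (ext τ) hτ))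
      (fun i j => (FreeLieAlgebra.lift F (fun n => X F (sub i j n)) :
        FreeLieAlgebra F ℕ →ₗ[F] FreeLieAlgebra F ℕ)) ?_ ?_
    · intro i j x hx
      exact hI (FreeLieAlgebra.lift F (fun n => X F (sub i j n))) x hx
    · intro i j τ
      have h := E_sub (F := F) r m hr (ext τ) i i.2 j
      have e : ext τ i = τ i := by simp [ext]
      rw [e] at h
      rw [← h]
      have h3 := E_map (FreeLieAlgebra.lift F (fun n => X F (sub i j n))) r m (ext τ)
        (fun n => X F n)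
      simp only [lift_of] at h3
      exact h3
  have hind2 : LinearIndependent F (fun τ : Fin r → Fin 3 =>
      (⟨S.mkQ (E r m (ext τ) (fun n => X F n)),
        Submodule.mem_map_of_mem (E_mem_multi r m hr (ext τ))⟩ :
        ((multi F (3 * r + m + 1)).map S.mkQ))) :=
    LinearIndependent.of_comp (Submodule.subtype _) hind
  have h := hind2.cardinal_lift_le_rank
  have hc : #(Fin r → Fin 3) = ((3 ^ r : ℕ) : Cardinal.{0}) := by simp
  simp only [hc, Cardinal.lift_natCast, Cardinal.lift_uzero] at h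
  exact h

lemma codim_lower' (h2 : (2 : F) ≠ 0) {I : LieIdeal F (FreeLieAlgebra F ℕ)} (hI : IsVerbal I)
    (hns : ¬ Solv I) (n : ℕ) (hn : 1 ≤ n) :
    ((3 ^ (n / 4) : ℕ) : Cardinal.{u}) ≤ codim I n := by
  have h := codim_lower h2 hI hns (n / 4) (n / 4 + n % 4 - 1) (by omega)
  have e : 3 * (n / 4) + (n / 4 + n % 4 - 1) + 1 = n := by omega
  rwa [e] at h

lemma not_poly (h2 : (2 : F) ≠ 0) {I : LieIdeal F (FreeLieAlgebra F ℕ)} (hI : IsVerbal I)
    (hns : ¬ Solv I) : ¬ PolyGrowth I := by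
  rintro ⟨C, k, h⟩
  have h1 : ∀ m : ℕ, 1 ≤ m → 3 ^ m ≤ C * (4 * m) ^ k := by
    intro m hm
    have h3 := (codim_lower' h2 hI hns (4 * m) (by omega)).trans (h (4 * m) (by omega))
    rw [show 4 * m / 4 = m by omega] at h3
    exact_mod_cast h3
  have h4 : Filter.Tendsto (fun m : ℕ => (m : ℝ) ^ k / 3 ^ m) Filter.atTop (nhds 0) :=
    tendsto_pow_const_div_const_pow_of_one_lt k (by norm_num)
  have h5 : ∀ᶠ m : ℕ in Filter.atTop, (m : ℝ) ^ k / 3 ^ m < 1 / (C * 4 ^ k + 1) :=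
    h4.eventually_lt_const (by positivity)
  obtain ⟨m, hm, hm1⟩ := (h5.and (Filter.eventually_ge_atTop 1)).exists
  have h6 : (3 : ℝ) ^ m ≤ C * (4 * m) ^ k := by exact_mod_cast h1 m hm1
  rw [div_lt_div_iff₀ (by positivity) (by positivity)] at hm
  have h7 : (m : ℝ) ^ k * (C * 4 ^ k + 1) = C * (4 * m) ^ k + (m : ℝ) ^ k := by
    rw [mul_pow]; ring
  have h8 : (0 : ℝ) < (m : ℝ) ^ k := by
    have : (0 : ℝ) < m := by exact_mod_cast hm1
    positivity
  linarith

lemma ev_mem {A : Type u} [LieRing A] [LieAlgebra F A] (S : LieIdeal F A) (d : ℕ)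
    (a : ℕ → A) (ha : ∀ i, a i ∈ S) : ev d a ∈ derivedSeriesOfIdeal F A d S := by
  induction d generalizing a with
  | zero => exact ha 0
  | succ d ih =>
    rw [derivedSeriesOfIdeal_succ]
    exact LieSubmodule.lie_mem_lie (ih _ fun i => ha _) (ih _ fun i => ha _)

lemma map_mem_ideal {A : Type u} [LieRing A] [LieAlgebra F A] (J : LieIdeal F A)
    (φ : FreeLieAlgebra F ℕ →ₗ⁅F⁆ A) (h : ∀ i, φ (X F i) ∈ J) (x : FreeLieAlgebra F ℕ) :
    φ x ∈ J := by
  have e : J.incl.comp (FreeLieAlgebra.lift F (fun i => (⟨φ (X F i), h i⟩ : J))) = φ := by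
    refine FreeLieAlgebra.hom_ext ?_
    intro i
    simp
  rw [← e]
  exact (FreeLieAlgebra.lift F (fun i => (⟨φ (X F i), h i⟩ : J)) x).2

/-- The identities, modulo the ideal `I₀`, of the subalgebra `J` of `A`. -/
def ids {A : Type u} [LieRing A] [LieAlgebra F A] (J I₀ : LieIdeal F A) :
    LieIdeal F (FreeLieAlgebra F ℕ) where
  carrier := {f | ∀ φ : FreeLieAlgebra F ℕ →ₗ⁅F⁆ A, (∀ i, φ (X F i) ∈ J) → φ f ∈ I₀}
  add_mem' := fun {a b} ha hb φ h => by
    rw [map_add]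
    exact add_mem (ha φ h) (hb φ h)
  zero_mem' := fun φ _ => by
    rw [map_zero]
    exact zero_mem _
  smul_mem' := fun c x hx φ h => by
    rw [map_smul]
    exact SMulMemClass.smul_mem c (hx φ h)
  lie_mem := fun {x m} hm φ h => by
    rw [LieHom.map_lie]
    exact lie_mem_right F A I₀ _ _ (hm φ h)

lemma mem_ids {A : Type u} [LieRing A] [LieAlgebra F A] (J I₀ : LieIdeal F A)
    (f : FreeLieAlgebra F ℕ) : f ∈ ids J I₀ ↔
      ∀ φ : FreeLieAlgebra F ℕ →ₗ⁅F⁆ A, (∀ i, φ (X F i) ∈ J) → φ f ∈ I₀ := Iff.rfl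

lemma ids_verbal {A : Type u} [LieRing A] [LieAlgebra F A] (J I₀ : LieIdeal F A) :
    IsVerbal (ids J I₀) := by
  intro ψ f hf φ h
  exact hf (φ.comp ψ) fun i => map_mem_ideal J φ h (ψ (X F i))

lemma ids_solv {A : Type u} [LieRing A] [LieAlgebra F A] {J I₀ : LieIdeal F A}
    (h : Solv (ids J I₀)) : ∃ d, derivedSeriesOfIdeal F A d J ≤ I₀ := by
  obtain ⟨d, hd⟩ := h
  refine ⟨d, fun x hx => ?_⟩
  refine (Submodule.span_le (p := (I₀ : Submodule F A))).2 ?_ (span_ev J d x hx)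
  rintro _ ⟨a, ha, rfl⟩
  have h1 := hd (ev_mem ⊤ d (fun i => X F i) fun _ => LieSubmodule.mem_top _)
  have h2 := h1 (FreeLieAlgebra.lift F a) (fun i => by
    rw [FreeLieAlgebra.lift_of_apply]; exact ha i)
  rw [ev_map] at h2
  simp only [FreeLieAlgebra.lift_of_apply] at h2
  exact h2

lemma sup_verbal {I J : LieIdeal F (FreeLieAlgebra F ℕ)} (hI : IsVerbal I) (hJ : IsVerbal J) :
    IsVerbal (I ⊔ J) := by
  intro φ f hf
  rw [LieSubmodule.mem_sup] at hf ⊢
  obtain ⟨a, ha, b, hb, rfl⟩ := hf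
  exact ⟨φ a, hI φ a ha, φ b, hJ φ b hb, (map_add φ a b).symm⟩

lemma just_of_almost (h2 : (2 : F) ≠ 0) {I : LieIdeal F (FreeLieAlgebra F ℕ)}
    (h : AlmostPoly I) (hns : ¬ Solv I) : JustNonSolv I := by
  refine ⟨h.1, hns, fun J hJ hlt => ?_⟩
  by_contra hc
  exact not_poly h2 hJ hc (h.2.2 J hJ hlt)

lemma just_sup {I J : LieIdeal F (FreeLieAlgebra F ℕ)} (hI : JustNonSolv I)
    (hJ : IsVerbal J) (h : ¬ J ≤ I) : Solv (I ⊔ J) := by
  refine hI.2.2 _ (sup_verbal hI.1 hJ) (lt_of_le_of_ne le_sup_left fun e => h ?_)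
  rw [e]
  exact le_sup_right

lemma just_prime {I J K : LieIdeal F (FreeLieAlgebra F ℕ)} (hI : JustNonSolv I)
    (hJ : IsVerbal J) (hK : IsVerbal K) (h : ⁅J, K⁆ ≤ I) : J ≤ I ∨ K ≤ I := by
  by_contra hc
  obtain ⟨hc1, hc2⟩ := not_or.1 hc
  obtain ⟨d, hd⟩ := just_sup hI hJ hc1
  obtain ⟨e, he⟩ := just_sup hI hK hc2
  refine hI.2.1 ⟨max d e + 1, ?_⟩
  rw [derivedSeries_def, derivedSeriesOfIdeal_succ]
  have h1 : derivedSeriesOfIdeal F (FreeLieAlgebra F ℕ) (max d e) ⊤ ≤ I ⊔ J :=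
    (derivedSeriesOfIdeal_le le_rfl (le_max_left d e)).trans hd
  have h2 : derivedSeriesOfIdeal F (FreeLieAlgebra F ℕ) (max d e) ⊤ ≤ I ⊔ K :=
    (derivedSeriesOfIdeal_le le_rfl (le_max_right d e)).trans he
  refine (LieSubmodule.mono_lie h1 h2).trans ?_
  rw [LieSubmodule.sup_lie, LieSubmodule.lie_sup, LieSubmodule.lie_sup]
  refine sup_le (sup_le ?_ ?_) (sup_le ?_ h)
  · exact LieSubmodule.lie_le_right _ _
  · exact LieSubmodule.lie_le_left _ _
  · exact LieSubmodule.lie_le_right _ _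

lemma just_gen {I : LieIdeal F (FreeLieAlgebra F ℕ)} (hI : JustNonSolv I)
    {A : Type u} [LieRing A] [LieAlgebra F A] {J I₀ : LieIdeal F A}
    (h : I ≤ ids J I₀) (hns : ¬ ∃ d, derivedSeriesOfIdeal F A d J ≤ I₀) : ids J I₀ ≤ I := by
  by_contra hc
  refine hns (ids_solv (hI.2.2 _ (ids_verbal J I₀) (lt_of_le_of_ne h fun e => hc ?_)))
  rw [← e]

lemma just_gen_alg {I : LieIdeal F (FreeLieAlgebra F ℕ)} (hI : JustNonSolv I)
    (A : Type u) [LieRing A] [LieAlgebra F A]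
    (h : ∀ φ : FreeLieAlgebra F ℕ →ₗ⁅F⁆ A, ∀ f ∈ I, φ f = 0)
    (hns : ¬ ∃ d, derivedSeries F A d = ⊥) (f : FreeLieAlgebra F ℕ)
    (hf : ∀ φ : FreeLieAlgebra F ℕ →ₗ⁅F⁆ A, φ f = 0) : f ∈ I := by
  refine just_gen hI (A := A) (J := ⊤) (I₀ := ⊥) ?_ ?_ ?_
  · intro g hg φ _
    rw [h φ g hg]
    exact zero_mem _
  · rintro ⟨d, hd⟩
    exact hns ⟨d, le_bot_iff.1 hd⟩
  · intro φ _
    rw [hf φ]
    exact zero_mem _

lemma just_gen_ideal {I J : LieIdeal F (FreeLieAlgebra F ℕ)} (hI : JustNonSolv I)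
    (hJ : IsVerbal J) (hlt : I < J) (f : FreeLieAlgebra F ℕ)
    (hf : ∀ φ : FreeLieAlgebra F ℕ →ₗ⁅F⁆ FreeLieAlgebra F ℕ,
      (∀ i, φ (X F i) ∈ J) → φ f ∈ I) : f ∈ I := by
  refine just_gen hI (A := FreeLieAlgebra F ℕ) (J := J) (I₀ := I) ?_ ?_ hf
  · intro g hg φ _
    exact hI.1 φ g hg
  · rintro ⟨d, hd⟩
    obtain ⟨e, he⟩ := hI.2.2 J hJ hlt
    refine hI.2.1 ⟨d + e, ?_⟩
    rw [derivedSeries_def, derivedSeriesOfIdeal_add]
    exact (derivedSeriesOfIdeal_le he le_rfl).trans hd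

/-- A verbal ideal is as solvable as the one identity `ev d X` says. -/
lemma solv_of_ev {I : LieIdeal F (FreeLieAlgebra F ℕ)} (hI : IsVerbal I) {d : ℕ}
    (h : ev d (fun i => X F i) ∈ I) : derivedSeries F (FreeLieAlgebra F ℕ) d ≤ I := by
  intro x hx
  refine (Submodule.span_le (p := (I : Submodule F (FreeLieAlgebra F ℕ)))).2 ?_
    (span_ev ⊤ d x hx)
  rintro _ ⟨a, -, rfl⟩
  have h2 := hI (FreeLieAlgebra.lift F a) _ h
  rw [ev_map] at h2
  simp only [FreeLieAlgebra.lift_of_apply] at h2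
  exact h2

/-- Every non-solvable verbal ideal lies in a maximal one: every non-solvable variety contains a
just non-solvable variety. -/
lemma exists_just {I : LieIdeal F (FreeLieAlgebra F ℕ)} (hI : IsVerbal I) (hns : ¬ Solv I) :
    ∃ M : LieIdeal F (FreeLieAlgebra F ℕ), I ≤ M ∧ JustNonSolv M := by
  have hz : ∀ c ⊆ {J : LieIdeal F (FreeLieAlgebra F ℕ) | IsVerbal J ∧ ¬ Solv J},
      IsChain (· ≤ ·) c → ∀ y ∈ c,
      ∃ ub ∈ {J : LieIdeal F (FreeLieAlgebra F ℕ) | IsVerbal J ∧ ¬ Solv J}, ∀ z ∈ c, z ≤ ub := by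
    intro c hc hchain y hy
    let U : LieIdeal F (FreeLieAlgebra F ℕ) :=
      { carrier := {x | ∃ J ∈ c, x ∈ J}
        add_mem' := by
          rintro a b ⟨J, hJ, ha⟩ ⟨K, hK, hb⟩
          rcases hchain.total hJ hK with h | h
          · exact ⟨K, hK, add_mem (h ha) hb⟩
          · exact ⟨J, hJ, add_mem ha (h hb)⟩
        zero_mem' := ⟨y, hy, zero_mem _⟩
        smul_mem' := by
          rintro t x ⟨J, hJ, hx⟩
          exact ⟨J, hJ, SMulMemClass.smul_mem t hx⟩
        lie_mem := by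
          rintro x m ⟨J, hJ, hm⟩
          exact ⟨J, hJ, lie_mem_right F (FreeLieAlgebra F ℕ) J _ _ hm⟩ }
    have hU : ∀ x, x ∈ U ↔ ∃ J ∈ c, x ∈ J := fun x => Iff.rfl
    refine ⟨U, ⟨?_, ?_⟩, fun z hz x hx => (hU x).2 ⟨z, hz, hx⟩⟩
    · intro φ f hf
      obtain ⟨J, hJ, hf⟩ := (hU f).1 hf
      exact (hU _).2 ⟨J, hJ, (hc hJ).1 φ f hf⟩
    · rintro ⟨d, hd⟩
      obtain ⟨J, hJ, hx⟩ := (hU _).1
        (hd (ev_mem ⊤ d (fun i => X F i) fun _ => LieSubmodule.mem_top _))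
      exact (hc hJ).2 ⟨d, solv_of_ev (hc hJ).1 hx⟩
  obtain ⟨M, hIM, hM⟩ := zorn_le_nonempty₀ _ hz I ⟨hI, hns⟩
  refine ⟨M, hIM, hM.1.1, hM.1.2, fun J hJ hlt => ?_⟩
  by_contra hc
  exact hlt.not_ge (hM.2 ⟨hJ, hc⟩ hlt.le)

end Pool.Agent.LAPG
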